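import Pool.Agent.Lib.MP_56aee0_co.OC.AddA
import Pool.Agent.Lib.MP_56aee0_co.OC.AddB

/-!
# Regions that are critical for the eternal domination number

`Crit Γ S`: the number `ednOn Γ S` drops when any vertex of `S` is deleted. `Conn Γ S`: the region `S` is connected.
Every region contains pairwise non adjacent connected critical regions with the same total number of guards
(`exists_decomp`), and a connected critical region `S` satisfies `2 ednOn Γ S ≤ |S| + 1` (`two_mul_ednOn_le`), the
analogue of a theorem of Gallai on colour-critical graphs with connected complement.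
-/

set_option autoImplicit false

namespace Pool.Agent.Lib.MP_56aee0_co.TC

open Pool.Agent.Lib.MP_56aee0_co Pool.Agent.Lib.MP_56aee0_co.OC

variable {V : Type} [DecidableEq V]

/-- there is an edge between the two sides of every partition of `S` in two nonempty parts -/
def Conn (Γ : SimpleGraph V) (S : Finset V) : Prop :=
  ∀ A ⊆ S, A.Nonempty → (S \ A).Nonempty → ∃ a ∈ A, ∃ b ∈ S \ A, Γ.Adj a b

/-- the eternal domination number of the region drops when a vertex is deleted -/
def Crit (Γ : SimpleGraph V) (S : Finset V) : Prop :=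
  ∀ v ∈ S, ednOn Γ (S.erase v) < ednOn Γ S

theorem ednOn_union_le' (Γ : SimpleGraph V) (A B : Finset V) :
    ednOn Γ (A ∪ B) ≤ ednOn Γ A + ednOn Γ B := by
  have h1 : A ∪ B = A ∪ (B \ A) := (Finset.union_sdiff_self_eq_union).symm
  rw [h1]
  exact (ednOn_union_le Finset.disjoint_sdiff).trans
    (Nat.add_le_add_left (ednOn_mono Finset.sdiff_subset) _)

theorem ednOn_empty (Γ : SimpleGraph V) : ednOn Γ ∅ = 0 :=
  Nat.le_zero.1 ((ednOn_le_card Γ ∅).trans (le_of_eq Finset.card_empty))

theorem ednOn_biUnion_le {ι : Type} [DecidableEq ι] (Γ : SimpleGraph V) (O : Finset ι)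
    (Z : ι → Finset V) : ednOn Γ (O.biUnion Z) ≤ ∑ i ∈ O, ednOn Γ (Z i) := by
  induction O using Finset.induction_on with
  | empty =>
    rw [Finset.biUnion_empty, ednOn_empty, Finset.sum_empty]
  | insert a O ha ih =>
    rw [Finset.biUnion_insert, Finset.sum_insert ha]
    exact (ednOn_union_le' Γ _ _).trans (Nat.add_le_add_left ih _)

theorem ednOn_le_erase (Γ : SimpleGraph V) (S : Finset V) (v : V) :
    ednOn Γ S ≤ ednOn Γ (S.erase v) + 1 := by
  have h1 : S ⊆ S.erase v ∪ {v} := by
    intro x hx
    by_cases h : x = v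
    · exact Finset.mem_union_right _ (Finset.mem_singleton.2 h)
    · exact Finset.mem_union_left _ (Finset.mem_erase.2 ⟨h, hx⟩)
  refine (ednOn_mono h1).trans ((ednOn_union_le' Γ _ _).trans (Nat.add_le_add_left ?_ _))
  exact (ednOn_le_card Γ {v}).trans (le_of_eq (Finset.card_singleton v))

/-- Every region contains pairwise non adjacent connected critical regions with the same total
number of guards. -/
theorem exists_decomp (Γ : SimpleGraph V) : ∀ (n : ℕ) (S : Finset V), S.card = n →
    ∃ P : Finset (Finset V), (∀ p ∈ P, p ⊆ S ∧ p.Nonempty ∧ Conn Γ p ∧ Crit Γ p) ∧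
      (∀ p ∈ P, ∀ q ∈ P, p ≠ q → ∀ x ∈ p, ∀ y ∈ q, x ≠ y ∧ ¬ Γ.Adj x y) ∧
      ∑ p ∈ P, ednOn Γ p = ednOn Γ S := by
  intro n
  induction n using Nat.strong_induction_on with
  | _ n ih =>
    intro S hS
    by_cases h0 : S.Nonempty
    swap
    · rw [Finset.not_nonempty_iff_eq_empty] at h0
      refine ⟨∅, fun p hp => absurd hp (Finset.notMem_empty p),
        fun p hp => absurd hp (Finset.notMem_empty p), ?_⟩
      rw [h0, ednOn_empty, Finset.sum_empty]
    by_cases h1 : Crit Γ S
    swap
    · unfold Crit at h1
      push Not at h1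
      obtain ⟨v, hv, h2⟩ := h1
      have h3 : (S.erase v).card < n := by
        rw [← hS]
        exact Finset.card_erase_lt_of_mem hv
      obtain ⟨P, hP1, hP2, hP3⟩ := ih _ h3 (S.erase v) rfl
      refine ⟨P, fun p hp => ⟨(hP1 p hp).1.trans (Finset.erase_subset v S), (hP1 p hp).2⟩,
        hP2, ?_⟩
      rw [hP3]
      exact le_antisymm (ednOn_mono (Finset.erase_subset v S)) h2
    by_cases h2 : Conn Γ S
    · refine ⟨{S}, fun p hp => ?_, fun p hp q hq hpq => ?_, ?_⟩
      · rw [Finset.mem_singleton] at hp
        subst hp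
        exact ⟨Finset.Subset.refl _, h0, h2, h1⟩
      · rw [Finset.mem_singleton] at hp hq
        exact absurd (hp.trans hq.symm) hpq
      · rw [Finset.sum_singleton]
    · unfold Conn at h2
      push Not at h2
      obtain ⟨A, hAS, hA, hB, hadj⟩ := h2
      have hcA : A.card < n := by
        rw [← hS]
        refine Finset.card_lt_card (Finset.ssubset_iff_subset_ne.2 ⟨hAS, ?_⟩)
        rintro rfl
        rw [Finset.sdiff_self] at hB
        exact Finset.not_nonempty_empty hB
      have hcB : (S \ A).card < n := by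
        rw [← hS]
        refine Finset.card_lt_card (Finset.ssubset_iff_subset_ne.2 ⟨Finset.sdiff_subset, ?_⟩)
        intro h3
        obtain ⟨a, ha⟩ := hA
        have h4 : a ∈ S \ A := by
          rw [h3]
          exact hAS ha
        exact (Finset.mem_sdiff.1 h4).2 ha
      obtain ⟨P, hP1, hP2, hP3⟩ := ih _ hcA A rfl
      obtain ⟨Q, hQ1, hQ2, hQ3⟩ := ih _ hcB (S \ A) rfl
      have hPQ : ∀ p ∈ P, ∀ q ∈ Q, ∀ x ∈ p, ∀ y ∈ q, x ≠ y ∧ ¬ Γ.Adj x y := by
        intro p hp q hq x hx y hy
        have hx' := (hP1 p hp).1 hx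
        have hy' := (hQ1 q hq).1 hy
        refine ⟨?_, hadj x hx' y hy'⟩
        rintro rfl
        exact (Finset.mem_sdiff.1 hy').2 hx'
      have hdisj : Disjoint P Q := by
        rw [Finset.disjoint_left]
        intro p hp hq
        obtain ⟨x, hx⟩ := (hP1 p hp).2.1
        exact (hPQ p hp p hq x hx x hx).1 rfl
      refine ⟨P ∪ Q, fun p hp => ?_, fun p hp q hq hpq x hx y hy => ?_, ?_⟩
      · rcases Finset.mem_union.1 hp with h | h
        · exact ⟨(hP1 p h).1.trans hAS, (hP1 p h).2⟩
        · exact ⟨(hQ1 p h).1.trans Finset.sdiff_subset, (hQ1 p h).2⟩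
      · rcases Finset.mem_union.1 hp with h | h
        · rcases Finset.mem_union.1 hq with h' | h'
          · exact hP2 p h q h' hpq x hx y hy
          · exact hPQ p h q h' x hx y hy
        · rcases Finset.mem_union.1 hq with h' | h'
          · have h3 := hPQ q h' p h y hy x hx
            exact ⟨h3.1.symm, fun h4 => h3.2 h4.symm⟩
          · exact hQ2 p h q h' hpq x hx y hy
      · rw [Finset.sum_union hdisj, hP3, hQ3]
        have h3 : A ∪ (S \ A) = S := Finset.union_sdiff_of_subset hAS
        refine le_antisymm ?_ ?_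
        · have h4 := ednOn_add_le (Γ := Γ) (Z1 := A) (Z2 := S \ A) (fun p hp q hq => by
            refine ⟨?_, hadj p hp q hq⟩
            rintro rfl
            exact (Finset.mem_sdiff.1 hq).2 hp)
          rw [h3] at h4
          exact h4
        · have h4 := ednOn_union_le' Γ A (S \ A)
          rw [h3] at h4
          exact h4

/-- a vertex next to a critical region is guarded for free -/
theorem ednOn_insert_le {Γ : SimpleGraph V} {p : Finset V} (hp : Crit Γ p) {y z : V} (hz : z ∈ p)
    (hyz : Γ.Adj y z) : ednOn Γ (insert y p) ≤ ednOn Γ p := by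
  have h1 : insert y p ⊆ p.erase z ∪ {y, z} := by
    intro x hx
    rcases Finset.mem_insert.1 hx with h | h
    · exact Finset.mem_union_right _ (Finset.mem_insert.2 (Or.inl h))
    · by_cases h2 : x = z
      · exact Finset.mem_union_right _ (Finset.mem_insert.2 (Or.inr (Finset.mem_singleton.2 h2)))
      · exact Finset.mem_union_left _ (Finset.mem_erase.2 ⟨h2, h⟩)
  have h2 : ednOn Γ {y, z} ≤ 1 := by
    refine ednOn_clique_le_one fun a ha b hb hab => ?_
    rw [Finset.mem_insert, Finset.mem_singleton] at ha hb
    rcases ha with rfl | rfl <;> rcases hb with rfl | rfl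
    · exact absurd rfl hab
    · exact hyz
    · exact hyz.symm
    · exact absurd rfl hab
  have h3 := hp z hz
  have h4 := (ednOn_mono h1).trans (ednOn_union_le' Γ (p.erase z) {y, z})
  omega

/-- **The analogue of Gallai's theorem.** -/
theorem two_mul_ednOn_le (Γ : SimpleGraph V) : ∀ (n : ℕ) (S : Finset V), S.card = n →
    S.Nonempty → Conn Γ S → Crit Γ S → 2 * ednOn Γ S ≤ S.card + 1 := by
  classical
  intro n
  induction n using Nat.strong_induction_on with
  | _ n ih =>
    intro S hS hne hconn hcrit
    obtain ⟨v, hv⟩ := hne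
    obtain ⟨P, hP1, hP2, hP3⟩ := exists_decomp Γ _ (S.erase v) rfl
    have hPS : ∀ p ∈ P, p ⊆ S := fun p hp => (hP1 p hp).1.trans (Finset.erase_subset v S)
    have hPv : ∀ p ∈ P, v ∉ p := fun p hp hvp =>
      (Finset.mem_erase.1 ((hP1 p hp).1 hvp)).1 rfl
    set U : Finset V := S \ P.biUnion id with hU
    have hvU : v ∈ U := by
      rw [hU, Finset.mem_sdiff]
      refine ⟨hv, fun h => ?_⟩
      obtain ⟨p, hp, hvp⟩ := Finset.mem_biUnion.1 h
      exact hPv p hp hvp
    have hUS : U ⊆ S := Finset.sdiff_subset
    have hUP : ∀ x ∈ U, ∀ p ∈ P, x ∉ p := fun x hx p hp hxp =>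
      (Finset.mem_sdiff.1 hx).2 (Finset.mem_biUnion.2 ⟨p, hp, hxp⟩)
    have hbS : P.biUnion id ⊆ S := by
      intro x hx
      obtain ⟨p, hp, hxp⟩ := Finset.mem_biUnion.1 hx
      exact hPS p hp hxp
    have hcard1 : ∑ p ∈ P, p.card = (P.biUnion id).card := by
      rw [Finset.card_biUnion]
      · rfl
      · intro p hp q hq hpq
        show Disjoint p q
        rw [Finset.disjoint_left]
        intro x hx hx'
        exact (hP2 p hp q hq hpq x hx x hx').1 rfl
    have hcard2 : U.card + (P.biUnion id).card = S.card := by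
      rw [hU]
      exact Finset.card_sdiff_add_card_eq_card hbS
    have hih : ∀ p ∈ P, 2 * ednOn Γ p ≤ p.card + 1 := by
      intro p hp
      obtain ⟨h1, h2, h3, h4⟩ := hP1 p hp
      refine ih p.card ?_ p rfl h2 h3 h4
      rw [← hS]
      exact (Finset.card_le_card h1).trans_lt (Finset.card_erase_lt_of_mem hv)
    have hsum : 2 * ∑ p ∈ P, ednOn Γ p ≤ (P.biUnion id).card + P.card := by
      rw [Finset.mul_sum, ← hcard1]
      refine (Finset.sum_le_sum hih).trans (le_of_eq ?_)
      rw [Finset.sum_add_distrib, Finset.sum_const, smul_eq_mul, mul_one]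
    have hS1 : ednOn Γ S = ∑ p ∈ P, ednOn Γ p + 1 := by
      rw [hP3]
      exact le_antisymm (ednOn_le_erase Γ S v) (hcrit v hv)
    by_cases hcase : P.card + 1 ≤ U.card
    · omega
    · exfalso
      have hUk : U.card ≤ P.card := by omega
      -- the regions next to a vertex
      let N : V → Finset (Finset V) := fun x => P.filter fun p => ∃ y ∈ p, Γ.Adj x y
      have hNP : ∀ X : Finset V, X.biUnion N ⊆ P := by
        intro X p hp
        obtain ⟨x, _, hx⟩ := Finset.mem_biUnion.1 hp
        exact (Finset.mem_filter.1 hx).1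
      have hNk : ∀ X : Finset V, (X.biUnion N).card ≤ P.card := fun X =>
        Finset.card_le_card (hNP X)
      let w : Finset V → ℕ := fun X =>
        (U.card + 1) * (X.card + P.card - (X.biUnion N).card) + (U.card - X.card)
      obtain ⟨X, hX, hmax⟩ := Finset.exists_max_image U.powerset w
        ⟨∅, Finset.empty_mem_powerset U⟩
      have hXU : X ⊆ U := Finset.mem_powerset.1 hX
      set NX : Finset (Finset V) := X.biUnion N with hNX
      -- the condition of Hall
      have hall : ∀ Z : Finset V, Z ⊆ U \ X → Z.card ≤ (Z.biUnion N \ NX).card := by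
        intro Z hZ
        by_contra hcon
        push Not at hcon
        have hXZ : X ∪ Z ∈ U.powerset := by
          rw [Finset.mem_powerset]
          exact Finset.union_subset hXU (hZ.trans Finset.sdiff_subset)
        have h1 := hmax _ hXZ
        have h2 : (X ∪ Z).card = X.card + Z.card := by
          refine Finset.card_union_of_disjoint ?_
          rw [Finset.disjoint_left]
          intro x hx hx'
          exact (Finset.mem_sdiff.1 (hZ hx')).2 hx
        have h3 : ((X ∪ Z).biUnion N).card = NX.card + (Z.biUnion N \ NX).card := by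
          rw [Finset.union_biUnion, ← Finset.union_sdiff_self_eq_union]
          exact Finset.card_union_of_disjoint Finset.disjoint_sdiff
        have h4 : NX.card ≤ P.card := hNk X
        have h5 : ((X ∪ Z).biUnion N).card ≤ P.card := hNk _
        have h6 : X.card ≤ U.card := Finset.card_le_card hXU
        simp only [w] at h1
        rw [h2, h3, ← hNX] at h1
        rw [h3] at h5
        have h7 : X.card + P.card - NX.card + 1 ≤
            X.card + Z.card + P.card - (NX.card + (Z.biUnion N \ NX).card) := by omega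
        have h8 := Nat.mul_le_mul_left (U.card + 1) h7
        have h9 : (U.card + 1) * (X.card + P.card - NX.card + 1) =
            (U.card + 1) * (X.card + P.card - NX.card) + (U.card + 1) := by ring
        omega
      have hXne : X ≠ U := by
        intro hXU'
        have h1 : U.biUnion N = P := by
          refine Finset.Subset.antisymm (hNP U) fun p hp => ?_
          obtain ⟨a, ha, b, hb, hab⟩ := hconn p (hPS p hp) (hP1 p hp).2.1
            ⟨v, Finset.mem_sdiff.2 ⟨hv, hPv p hp⟩⟩
          rw [Finset.mem_sdiff] at hb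
          have hbU : b ∈ U := by
            rw [hU, Finset.mem_sdiff]
            refine ⟨hb.1, fun h => ?_⟩
            obtain ⟨q, hq, hbq⟩ := Finset.mem_biUnion.1 h
            have hpq : p ≠ q := by
              rintro rfl
              exact hb.2 hbq
            exact (hP2 p hp q hq hpq a ha b hbq).2 hab
          exact Finset.mem_biUnion.2 ⟨b, hbU, Finset.mem_filter.2 ⟨hp, a, ha, hab.symm⟩⟩
        have h2 := hmax ∅ (Finset.empty_mem_powerset U)
        simp only [w] at h2
        rw [hXU', h1, Finset.card_empty, Finset.biUnion_empty, Finset.card_empty] at h2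
        have h3 : 1 ≤ U.card := Finset.card_pos.2 ⟨v, hvU⟩
        have h4 : U.card + P.card - P.card = U.card := by omega
        have h5 : 0 + P.card - 0 = P.card := by omega
        rw [h4, h5] at h2
        have h6 := Nat.mul_le_mul_left (U.card + 1) hUk
        omega
      obtain ⟨y0, hy0⟩ : (U \ X).Nonempty := by
        rw [Finset.sdiff_nonempty]
        intro h
        exact hXne (Finset.Subset.antisymm hXU h)
      -- the matching
      obtain ⟨f, hf1, hf2⟩ := (Finset.all_card_le_biUnion_card_iff_exists_injective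
        (fun y : {y // y ∈ U \ X} => N y.1 \ NX)).1 (by
          intro s
          have h1 := hall (s.map (Function.Embedding.subtype _)) (by
            intro y hy
            obtain ⟨z, _, rfl⟩ := Finset.mem_map.1 hy
            exact z.2)
          rw [Finset.card_map] at h1
          refine h1.trans (Finset.card_le_card ?_)
          intro p hp
          rw [Finset.mem_sdiff] at hp
          obtain ⟨y, hy, hpy⟩ := Finset.mem_biUnion.1 hp.1
          obtain ⟨z, hz, rfl⟩ := Finset.mem_map.1 hy
          exact Finset.mem_biUnion.2 ⟨z, hz, Finset.mem_sdiff.2 ⟨hpy, hp.2⟩⟩)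
      let R : Finset V → Finset V := fun p =>
        p ∪ (U \ X).filter fun y => ∃ h : y ∈ U \ X, f ⟨y, h⟩ = p
      have hR : ∀ p ∈ P \ NX, ednOn Γ (R p) ≤ ednOn Γ p := by
        intro p hp
        by_cases h1 : ∃ y, ∃ h : y ∈ U \ X, f ⟨y, h⟩ = p
        · obtain ⟨y, hy, hfy⟩ := h1
          have h2 := hf2 ⟨y, hy⟩
          rw [hfy, Finset.mem_sdiff, Finset.mem_filter] at h2
          obtain ⟨⟨hpP, z, hz, hyz⟩, _⟩ := h2
          have h3 : R p ⊆ insert y p := by
            intro x hx
            rcases Finset.mem_union.1 hx with h4 | h4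
            · exact Finset.mem_insert_of_mem h4
            · obtain ⟨hxU, hfx⟩ := (Finset.mem_filter.1 h4).2
              have h5 : (⟨x, hxU⟩ : {y // y ∈ U \ X}) = ⟨y, hy⟩ := hf1 (hfx.trans hfy.symm)
              rw [Finset.mem_insert]
              exact Or.inl (congrArg Subtype.val h5)
          exact (ednOn_mono h3).trans (ednOn_insert_le (hP1 p hpP).2.2.2 hz hyz)
        · have h3 : R p ⊆ p := by
            intro x hx
            rcases Finset.mem_union.1 hx with h4 | h4
            · exact h4
            · obtain ⟨hxU, hfx⟩ := (Finset.mem_filter.1 h4).2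
              exact absurd ⟨x, hxU, hfx⟩ h1
          exact ednOn_mono h3
      have hup : ednOn Γ S ≤ ednOn Γ (X ∪ NX.biUnion id) + ∑ p ∈ P \ NX, ednOn Γ p := by
        have h1 : S ⊆ (X ∪ NX.biUnion id) ∪ (P \ NX).biUnion R := by
          intro x hx
          by_cases hxU : x ∈ U
          · by_cases hxX : x ∈ X
            · exact Finset.mem_union_left _ (Finset.mem_union_left _ hxX)
            · have hxY : x ∈ U \ X := Finset.mem_sdiff.2 ⟨hxU, hxX⟩
              have h2 := hf2 ⟨x, hxY⟩
              rw [Finset.mem_sdiff, Finset.mem_filter] at h2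
              refine Finset.mem_union_right _ (Finset.mem_biUnion.2 ⟨f ⟨x, hxY⟩,
                Finset.mem_sdiff.2 ⟨h2.1.1, h2.2⟩, Finset.mem_union_right _ ?_⟩)
              exact Finset.mem_filter.2 ⟨hxY, hxY, rfl⟩
          · have h2 : x ∈ P.biUnion id := by
              by_contra h3
              exact hxU (Finset.mem_sdiff.2 ⟨hx, h3⟩)
            obtain ⟨p, hp, hxp⟩ := Finset.mem_biUnion.1 h2
            by_cases hpN : p ∈ NX
            · exact Finset.mem_union_left _ (Finset.mem_union_right _
                (Finset.mem_biUnion.2 ⟨p, hpN, hxp⟩))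
            · exact Finset.mem_union_right _ (Finset.mem_biUnion.2
                ⟨p, Finset.mem_sdiff.2 ⟨hp, hpN⟩, Finset.mem_union_left _ hxp⟩)
        exact (ednOn_mono h1).trans ((ednOn_union_le' Γ _ _).trans (Nat.add_le_add_left
          ((ednOn_biUnion_le Γ _ _).trans (Finset.sum_le_sum hR)) _))
      have hlow : ednOn Γ (X ∪ NX.biUnion id) + ∑ p ∈ P \ NX, ednOn Γ p ≤
          ednOn Γ (S.erase y0) := by
        have h1 : ∑ p ∈ P \ NX, ednOn Γ p ≤ ednOn Γ ((P \ NX).biUnion id) := by
          refine sum_ednOn_le (P \ NX) id fun p hp q hq hpq x hx y hy => ?_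
          exact hP2 p (Finset.mem_sdiff.1 hp).1 q (Finset.mem_sdiff.1 hq).1 hpq x hx y hy
        have h2 : ednOn Γ (X ∪ NX.biUnion id) + ednOn Γ ((P \ NX).biUnion id) ≤
            ednOn Γ ((X ∪ NX.biUnion id) ∪ (P \ NX).biUnion id) := by
          refine ednOn_add_le fun x hx y hy => ?_
          obtain ⟨p, hp, hyp⟩ := Finset.mem_biUnion.1 hy
          rw [Finset.mem_sdiff] at hp
          rcases Finset.mem_union.1 hx with h3 | h3
          · refine ⟨?_, fun h4 => ?_⟩
            · rintro rfl
              exact hUP x (hXU h3) p hp.1 hyp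
            · exact hp.2 (Finset.mem_biUnion.2 ⟨x, h3, Finset.mem_filter.2 ⟨hp.1, y, hyp, h4⟩⟩)
          · obtain ⟨q, hq, hxq⟩ := Finset.mem_biUnion.1 h3
            have hqp : q ≠ p := by
              rintro rfl
              exact hp.2 hq
            exact hP2 q (hNP X hq) p hp.1 hqp x hxq y hyp
        refine (Nat.add_le_add_left h1 _).trans (h2.trans (ednOn_mono ?_))
        intro x hx
        rw [Finset.mem_sdiff] at hy0
        rw [Finset.mem_erase]
        rcases Finset.mem_union.1 hx with h3 | h3
        · rcases Finset.mem_union.1 h3 with h4 | h4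
          · refine ⟨?_, hUS (hXU h4)⟩
            rintro rfl
            exact hy0.2 h4
          · obtain ⟨q, hq, hxq⟩ := Finset.mem_biUnion.1 h4
            refine ⟨?_, hPS q (hNP X hq) hxq⟩
            rintro rfl
            exact hUP x hy0.1 q (hNP X hq) hxq
        · obtain ⟨q, hq, hxq⟩ := Finset.mem_biUnion.1 h3
          rw [Finset.mem_sdiff] at hq
          refine ⟨?_, hPS q hq.1 hxq⟩
          rintro rfl
          exact hUP x hy0.1 q hq.1 hxq
      have hfin := hcrit y0 (hUS (Finset.mem_sdiff.1 hy0).1)
      omega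

end Pool.Agent.Lib.MP_56aee0_co.TC
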