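import Pool.Agent.Lib.MP_56aee0_co.TC.Gallai
import Pool.Agent.Lib.MP_56aee0_co.OC.Iso
import Pool.Agent.Lib.MP_56aee0_co.OC.Layer

/-!
# Products of graphs with homomorphisms to a common Cayley graph
-/

set_option autoImplicit false

namespace Pool.Agent.Lib.MP_56aee0_co.TC

open Pool.Agent.Lib.MP_56aee0_co Pool.Agent.Lib.MP_56aee0_co.OC

/-- A connected critical region with at least two vertices needs at least three guards. -/
theorem three_le {V : Type} [DecidableEq V] {Γ : SimpleGraph V} {S : Finset V} (h1 : Conn Γ S)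
    (h2 : Crit Γ S) (h3 : 2 ≤ S.card) : 3 ≤ ednOn Γ S := by
  have hpos : ∀ v ∈ S, 1 ≤ ednOn Γ (S.erase v) := by
    intro v hv
    have h4 : (S.erase v).Nonempty := by
      rw [← Finset.card_pos, Finset.card_erase_of_mem hv]
      omega
    obtain ⟨w, hw⟩ := h4
    have h5 : ({w} : Finset V).card ≤ ednOn Γ {w} := card_le_ednOn_of_indep (by
      intro p hp q hq
      rw [Finset.mem_singleton] at hp hq
      rw [hp, hq]
      exact Γ.irrefl)
    rw [Finset.card_singleton] at h5
    exact h5.trans (ednOn_mono (Finset.singleton_subset_iff.2 hw))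
  have h0 : S.Nonempty := by
    rw [← Finset.card_pos]
    omega
  obtain ⟨v, hv⟩ := h0
  by_cases hcl : ∀ p ∈ S, ∀ q ∈ S, p ≠ q → Γ.Adj p q
  · have h4 := ednOn_clique_le_one hcl
    have h5 := h2 v hv
    have h6 := hpos v hv
    omega
  · push Not at hcl
    obtain ⟨x, hx, y, hy, hxy, hadj⟩ := hcl
    have h4 : 2 ≤ ednOn Γ {x, y} := by
      have h5 : ({x, y} : Finset V).card ≤ ednOn Γ {x, y} := card_le_ednOn_of_indep (by
        intro p hp q hq
        rw [Finset.mem_insert, Finset.mem_singleton] at hp hq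
        rcases hp with rfl | rfl <;> rcases hq with rfl | rfl
        · exact Γ.irrefl
        · exact hadj
        · exact fun h => hadj h.symm
        · exact Γ.irrefl)
      rwa [Finset.card_pair hxy] at h5
    have h5 : ∃ z ∈ S, z ≠ x ∧ z ≠ y := by
      by_contra hcon
      push Not at hcon
      obtain ⟨a, ha, b, hb, hab⟩ := h1 {x} (Finset.singleton_subset_iff.2 hx)
        (Finset.singleton_nonempty x)
        ⟨y, Finset.mem_sdiff.2 ⟨hy, fun h => hxy (Finset.mem_singleton.1 h).symm⟩⟩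
      rw [Finset.mem_singleton] at ha
      rw [Finset.mem_sdiff, Finset.mem_singleton] at hb
      have h6 := hcon b hb.1 hb.2
      rw [ha, h6] at hab
      exact hadj hab
    obtain ⟨z, hz, hzx, hzy⟩ := h5
    have h6 : ({x, y} : Finset V) ⊆ S.erase z := by
      intro p hp
      rw [Finset.mem_insert, Finset.mem_singleton] at hp
      rw [Finset.mem_erase]
      rcases hp with rfl | rfl
      · exact ⟨hzx.symm, hx⟩
      · exact ⟨hzy.symm, hy⟩
    have h7 := ednOn_mono (Γ := Γ) h6
    have h8 := h2 z hz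
    omega

section

variable {V W : Type} [Fintype V] [DecidableEq V] [Fintype W] [DecidableEq W]

/-- the other layers -/
theorem ednOn_le_layer' (G : SimpleGraph V) (H : SimpleGraph W) (w : W) (S : Finset V) :
    ednOn G S ≤ ednOn (G.boxProd H) (S ×ˢ ({w} : Finset W)) := by
  have h1 := ednOn_map (Γ := G.boxProd H) (Γ' := H.boxProd G) (Equiv.prodComm W V).toEmbedding
    (by
      intro u v
      rw [SimpleGraph.boxProd_adj, SimpleGraph.boxProd_adj]
      exact or_comm) (({w} : Finset W) ×ˢ S)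
  have h2 : (({w} : Finset W) ×ˢ S).map (Equiv.prodComm W V).toEmbedding =
      S ×ˢ ({w} : Finset W) := by
    ext ⟨a, b⟩
    simp only [Finset.mem_map_equiv, Finset.mem_product, Finset.mem_singleton]
    exact and_comm
  rw [h2] at h1
  rw [h1]
  exact ednOn_le_layer H G w S

omit [Fintype V] [Fintype W] in
/-- A large independent set of the product. -/
theorem exists_indep {A : Type} [AddCommGroup A] [Fintype A] (G : SimpleGraph V)
    (H : SimpleGraph W) (I : Finset A) (φ : V → A) (ψ : W → A)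
    (hφ : ∀ u v, G.Adj u v → ∀ x ∈ I, ∀ y ∈ I, x - y ≠ φ u - φ v)
    (hψ : ∀ u v, H.Adj u v → ∀ x ∈ I, ∀ y ∈ I, x - y ≠ ψ u - ψ v)
    (S : Finset V) (T : Finset W) :
    S.card * T.card * I.card ≤ Fintype.card A * ednOn (G.boxProd H) (S ×ˢ T) := by
  classical
  let J : A → Finset (V × W) := fun c => (S ×ˢ T).filter fun p => φ p.1 - ψ p.2 - c ∈ I
  have hJ : ∀ c, (J c).card ≤ ednOn (G.boxProd H) (S ×ˢ T) := by
    intro c
    have h1 : (J c).card ≤ ednOn (G.boxProd H) (J c) := by
      refine card_le_ednOn_of_indep fun p hp q hq hadj => ?_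
      have hp' := (Finset.mem_filter.1 hp).2
      have hq' := (Finset.mem_filter.1 hq).2
      rw [SimpleGraph.boxProd_adj] at hadj
      rcases hadj with ⟨h2, h3⟩ | ⟨h2, h3⟩
      · refine hφ _ _ h2 _ hp' _ hq' ?_
        rw [h3]
        abel
      · refine hψ _ _ h2 _ hq' _ hp' ?_
        rw [h3]
        abel
    exact h1.trans (ednOn_mono (Finset.filter_subset _ _))
  have hsum : ∑ c : A, (J c).card = S.card * T.card * I.card := by
    have h1 : ∑ c : A, (J c).card =
        ∑ p ∈ S ×ˢ T, (Finset.univ.filter fun c : A => φ p.1 - ψ p.2 - c ∈ I).card := by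
      have h2 : ∀ c, (J c).card = ∑ p ∈ S ×ˢ T, if φ p.1 - ψ p.2 - c ∈ I then 1 else 0 :=
        fun c => Finset.card_filter _ _
      rw [Finset.sum_congr rfl fun c _ => h2 c, Finset.sum_comm]
      exact Finset.sum_congr rfl fun p _ => (Finset.card_filter _ _).symm
    have h3 : ∀ p : V × W, (Finset.univ.filter fun c : A => φ p.1 - ψ p.2 - c ∈ I).card =
        I.card := by
      intro p
      refine Finset.card_bij (fun c _ => φ p.1 - ψ p.2 - c) ?_ ?_ ?_
      · intro c hc
        exact (Finset.mem_filter.1 hc).2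
      · intro c _ c' _ h4
        exact sub_right_injective h4
      · intro x hx
        refine ⟨φ p.1 - ψ p.2 - x, ?_, ?_⟩
        · rw [Finset.mem_filter]
          refine ⟨Finset.mem_univ _, ?_⟩
          rw [sub_sub_cancel]
          exact hx
        · rw [sub_sub_cancel]
    rw [h1, Finset.sum_congr rfl fun p _ => h3 p, Finset.sum_const, smul_eq_mul,
      Finset.card_product]
  rw [← hsum]
  refine (Finset.sum_le_sum fun c _ => hJ c).trans (le_of_eq ?_)
  rw [Finset.sum_const, smul_eq_mul, Finset.card_univ]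

/-- Reduction to connected critical regions. -/
theorem of_pieces (G : SimpleGraph V) (H : SimpleGraph W) (a b : ℕ)
    (h : ∀ (S : Finset V) (T : Finset W), S.Nonempty → Conn G S → Crit G S → T.Nonempty →
      Conn H T → Crit H T →
      a * (ednOn G S * ednOn H T) ≤ b * ednOn (G.boxProd H) (S ×ˢ T)) :
    a * (edn G * edn H) ≤ b * edn (G.boxProd H) := by
  classical
  obtain ⟨P, hP1, hP2, hP3⟩ := exists_decomp G _ Finset.univ rfl
  obtain ⟨Q, hQ1, hQ2, hQ3⟩ := exists_decomp H _ Finset.univ rfl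
  rw [edn_eq_ednOn G, edn_eq_ednOn H, edn_eq_ednOn (G.boxProd H), ← hP3, ← hQ3]
  have h1 : ∑ z ∈ P ×ˢ Q, ednOn (G.boxProd H) (z.1 ×ˢ z.2) ≤
      ednOn (G.boxProd H) ((P ×ˢ Q).biUnion fun z => z.1 ×ˢ z.2) := by
    refine sum_ednOn_le (P ×ˢ Q) (fun z => z.1 ×ˢ z.2) ?_
    rintro ⟨p, q⟩ hpq ⟨p', q'⟩ hpq' hne ⟨x, y⟩ hxy ⟨x', y'⟩ hxy'
    rw [Finset.mem_product] at hpq hpq' hxy hxy'
    by_cases hp : p = p'
    · have hq : q ≠ q' := by
        rintro rfl
        exact hne (by rw [hp])
      have h2 := hQ2 q hpq.2 q' hpq'.2 hq y hxy.2 y' hxy'.2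
      refine ⟨fun h3 => h2.1 (congrArg Prod.snd h3), fun h3 => ?_⟩
      rw [SimpleGraph.boxProd_adj] at h3
      rcases h3 with ⟨_, h4⟩ | ⟨h4, _⟩
      · exact h2.1 h4
      · exact h2.2 h4
    · have h2 := hP2 p hpq.1 p' hpq'.1 hp x hxy.1 x' hxy'.1
      refine ⟨fun h3 => h2.1 (congrArg Prod.fst h3), fun h3 => ?_⟩
      rw [SimpleGraph.boxProd_adj] at h3
      rcases h3 with ⟨h4, _⟩ | ⟨_, h4⟩
      · exact h2.2 h4
      · exact h2.1 h4
  have h2 : ednOn (G.boxProd H) ((P ×ˢ Q).biUnion fun z => z.1 ×ˢ z.2) ≤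
      ednOn (G.boxProd H) Finset.univ := ednOn_mono (Finset.subset_univ _)
  refine le_trans ?_ (Nat.mul_le_mul_left b (h1.trans h2))
  rw [Finset.sum_mul_sum, ← Finset.sum_product', Finset.mul_sum, Finset.mul_sum]
  refine Finset.sum_le_sum fun z hz => ?_
  rw [Finset.mem_product] at hz
  obtain ⟨_, h3, h4, h5⟩ := hP1 z.1 hz.1
  obtain ⟨_, h6, h7, h8⟩ := hQ1 z.2 hz.2
  exact h z.1 z.2 h3 h4 h5 h6 h7 h8

/-- one of the regions is a single vertex -/
theorem piece_one (G : SimpleGraph V) (H : SimpleGraph W) (S : Finset V) (T : Finset W)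
    (h : S.card = 1 ∨ T.card = 1) :
    ednOn G S * ednOn H T ≤ ednOn (G.boxProd H) (S ×ˢ T) := by
  rcases h with h | h
  · obtain ⟨v, rfl⟩ := Finset.card_eq_one.1 h
    refine (Nat.mul_le_mul_right _ (ednOn_le_card G {v})).trans ?_
    rw [Finset.card_singleton, one_mul]
    exact ednOn_le_layer G H v T
  · obtain ⟨w, rfl⟩ := Finset.card_eq_one.1 h
    refine (Nat.mul_le_mul_left _ (ednOn_le_card H {w})).trans ?_
    rw [Finset.card_singleton, mul_one]
    exact ednOn_le_layer' G H w S

omit [Fintype V] [Fintype W] in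
/-- the arithmetic of two large regions -/
theorem piece_bounds (G : SimpleGraph V) (H : SimpleGraph W) {S : Finset V} {T : Finset W}
    (hS : S.Nonempty) (hS1 : Conn G S) (hS2 : Crit G S) (hT : T.Nonempty) (hT1 : Conn H T)
    (hT2 : Crit H T) (h : ¬ (S.card = 1 ∨ T.card = 1)) :
    3 ≤ ednOn G S ∧ 3 ≤ ednOn H T ∧
      (2 * ednOn G S - 1) * (2 * ednOn H T - 1) ≤ S.card * T.card := by
  have h1 := Finset.card_pos.2 hS
  have h2 := Finset.card_pos.2 hT
  push Not at h
  have h3 := two_mul_ednOn_le G _ S rfl hS hS1 hS2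
  have h4 := two_mul_ednOn_le H _ T rfl hT hT1 hT2
  have h5 : 2 ≤ S.card := by omega
  have h6 : 2 ≤ T.card := by omega
  exact ⟨three_le hS1 hS2 h5, three_le hT1 hT2 h6, Nat.mul_le_mul (by omega) (by omega)⟩

/-- **The product inequality.** -/
theorem product_inequality {A : Type} [AddCommGroup A] [Fintype A] (G : SimpleGraph V)
    (H : SimpleGraph W) (I : Finset A) (φ : V → A) (ψ : W → A)
    (hφ : ∀ u v, G.Adj u v → ∀ x ∈ I, ∀ y ∈ I, x - y ≠ φ u - φ v)
    (hψ : ∀ u v, H.Adj u v → ∀ x ∈ I, ∀ y ∈ I, x - y ≠ ψ u - ψ v)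
    (hI : 8 * Fintype.card A < 25 * I.card) : edn G * edn H ≤ edn (G.boxProd H) := by
  have key := of_pieces G H 1 1 (by
    intro S T hS hS1 hS2 hT hT1 hT2
    rw [one_mul, one_mul]
    by_cases h : S.card = 1 ∨ T.card = 1
    · exact piece_one G H S T h
    · obtain ⟨h1, h2, h3⟩ := piece_bounds G H hS hS1 hS2 hT hT1 hT2 h
      have h4 := exists_indep G H I φ ψ hφ hψ S T
      by_contra hcon
      push Not at hcon
      obtain ⟨a, ha⟩ : ∃ a, ednOn G S = a + 3 := ⟨ednOn G S - 3, by omega⟩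
      obtain ⟨b, hb⟩ : ∃ b, ednOn H T = b + 3 := ⟨ednOn H T - 3, by omega⟩
      rw [ha, hb] at h3 hcon
      have h7 : 2 * (a + 3) - 1 = 2 * a + 5 := by omega
      have h8 : 2 * (b + 3) - 1 = 2 * b + 5 := by omega
      rw [h7, h8] at h3
      -- the number of guards of the product is at most `a b + 3 a + 3 b + 8`
      have h9 : ednOn (G.boxProd H) (S ×ˢ T) ≤ a * b + 3 * a + 3 * b + 8 := by
        have h10 : (a + 3) * (b + 3) = a * b + 3 * a + 3 * b + 9 := by ring
        omega
      have h10 : (2 * a + 5) * (2 * b + 5) * I.card ≤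
          Fintype.card A * (a * b + 3 * a + 3 * b + 8) :=
        (Nat.mul_le_mul_right _ h3).trans (h4.trans (Nat.mul_le_mul_left _ h9))
      have h11 : 8 * ((2 * a + 5) * (2 * b + 5) * I.card) ≤
          8 * Fintype.card A * (a * b + 3 * a + 3 * b + 8) := by
        rw [mul_assoc 8]
        exact Nat.mul_le_mul_left 8 h10
      have h12 : 8 * Fintype.card A * (a * b + 3 * a + 3 * b + 8) <
          25 * I.card * (a * b + 3 * a + 3 * b + 8) :=
        Nat.mul_lt_mul_of_pos_right hI (by omega)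
      have h13 : 25 * I.card * (a * b + 3 * a + 3 * b + 8) ≤
          8 * ((2 * a + 5) * (2 * b + 5) * I.card) := by
        have h14 : 25 * (a * b + 3 * a + 3 * b + 8) ≤ 8 * ((2 * a + 5) * (2 * b + 5)) := by
          have h15 : 8 * ((2 * a + 5) * (2 * b + 5)) =
              25 * (a * b + 3 * a + 3 * b + 8) + (7 * (a * b) + 5 * a + 5 * b) := by ring
          rw [h15]
          exact Nat.le_add_right _ _
        calc 25 * I.card * (a * b + 3 * a + 3 * b + 8) =
            25 * (a * b + 3 * a + 3 * b + 8) * I.card := by ring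
          _ ≤ 8 * ((2 * a + 5) * (2 * b + 5)) * I.card := Nat.mul_le_mul_right _ h14
          _ = _ := by ring
      exact absurd (h12.trans_le h13) (not_lt.2 h11))
  rwa [one_mul, one_mul] at key

/-- **The product inequality up to a factor.** -/
theorem product_inequality_approx {A : Type} [AddCommGroup A] [Fintype A] (G : SimpleGraph V)
    (H : SimpleGraph W) (I : Finset A) (φ : V → A) (ψ : W → A)
    (hφ : ∀ u v, G.Adj u v → ∀ x ∈ I, ∀ y ∈ I, x - y ≠ φ u - φ v)
    (hψ : ∀ u v, H.Adj u v → ∀ x ∈ I, ∀ y ∈ I, x - y ≠ ψ u - ψ v)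
    (hI : 25 * I.card ≤ 9 * Fintype.card A) :
    25 * I.card * (edn G * edn H) ≤ 9 * Fintype.card A * edn (G.boxProd H) := by
  refine of_pieces G H (25 * I.card) (9 * Fintype.card A) ?_
  intro S T hS hS1 hS2 hT hT1 hT2
  by_cases h : S.card = 1 ∨ T.card = 1
  · exact Nat.mul_le_mul hI (piece_one G H S T h)
  · obtain ⟨h1, h2, h3⟩ := piece_bounds G H hS hS1 hS2 hT hT1 hT2 h
    have h4 := exists_indep G H I φ ψ hφ hψ S T
    obtain ⟨a, ha⟩ : ∃ a, ednOn G S = a + 3 := ⟨ednOn G S - 3, by omega⟩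
    obtain ⟨b, hb⟩ : ∃ b, ednOn H T = b + 3 := ⟨ednOn H T - 3, by omega⟩
    have h10 : 25 * (ednOn G S * ednOn H T) ≤ 9 * (S.card * T.card) := by
      refine le_trans ?_ (Nat.mul_le_mul_left 9 h3)
      rw [ha, hb]
      have h7 : 2 * (a + 3) - 1 = 2 * a + 5 := by omega
      have h8 : 2 * (b + 3) - 1 = 2 * b + 5 := by omega
      rw [h7, h8]
      nlinarith [Nat.zero_le (a * b)]
    calc 25 * I.card * (ednOn G S * ednOn H T) = 25 * (ednOn G S * ednOn H T) * I.card := by ring
      _ ≤ 9 * (S.card * T.card) * I.card := Nat.mul_le_mul_right _ h10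
      _ = 9 * (S.card * T.card * I.card) := by ring
      _ ≤ 9 * (Fintype.card A * ednOn (G.boxProd H) (S ×ˢ T)) := Nat.mul_le_mul_left 9 h4
      _ = _ := by ring

omit [Fintype V] in
/-- regions with a partner function -/
theorem two_mul_ednOn_le_card (G : SimpleGraph V) (f : V → V) (h1 : ∀ v, G.Adj v (f v))
    (h2 : ∀ v, f (f v) = v) : ∀ (n : ℕ) (S : Finset V), S.card = n → (∀ v ∈ S, f v ∈ S) →
    2 * ednOn G S ≤ S.card := by
  intro n
  induction n using Nat.strong_induction_on with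
  | _ n ih =>
    intro S hS hf
    by_cases h0 : S.Nonempty
    swap
    · rw [Finset.not_nonempty_iff_eq_empty] at h0
      rw [h0, ednOn_empty, mul_zero]
      exact Nat.zero_le _
    obtain ⟨v, hv⟩ := h0
    have hne : v ≠ f v := (h1 v).ne
    have hsub : ({v, f v} : Finset V) ⊆ S := by
      intro x hx
      rw [Finset.mem_insert, Finset.mem_singleton] at hx
      rcases hx with rfl | rfl
      · exact hv
      · exact hf v hv
    have hc : (S \ {v, f v}).card + 2 = S.card := by
      have h3 := Finset.card_sdiff_add_card_eq_card hsub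
      rwa [Finset.card_pair hne] at h3
    have h3 := ih (S \ {v, f v}).card (by omega) (S \ {v, f v}) rfl (by
      intro x hx
      rw [Finset.mem_sdiff, Finset.mem_insert, Finset.mem_singleton] at hx ⊢
      push Not at hx ⊢
      refine ⟨hf x hx.1, fun h4 => ?_, fun h4 => ?_⟩
      · apply hx.2.2
        rw [← h4, h2]
      · apply hx.2.1
        rw [← h2 x, h4, h2])
    have h4 : ednOn G {v, f v} ≤ 1 := by
      refine ednOn_clique_le_one fun a ha b hb hab => ?_
      rw [Finset.mem_insert, Finset.mem_singleton] at ha hb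
      rcases ha with rfl | rfl <;> rcases hb with rfl | rfl
      · exact absurd rfl hab
      · exact h1 _
      · exact (h1 _).symm
      · exact absurd rfl hab
    have h5 := ednOn_union_le' G (S \ {v, f v}) {v, f v}
    rw [Finset.sdiff_union_of_subset hsub] at h5
    omega

/-- a graph with a perfect matching needs at most half of its number of vertices -/
theorem two_mul_edn_le_of_matching (G : SimpleGraph V)
    (h : ∃ M : G.Subgraph, M.IsPerfectMatching) : 2 * edn G ≤ Fintype.card V := by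
  obtain ⟨M, hM⟩ := h
  rw [SimpleGraph.Subgraph.isPerfectMatching_iff] at hM
  choose f hf hfu using hM
  rw [edn_eq_ednOn]
  refine (two_mul_ednOn_le_card G f (fun v => (hf v).adj_sub) (fun v => ?_) _ Finset.univ rfl
    fun v _ => Finset.mem_univ _).trans (le_of_eq Finset.card_univ)
  exact (hfu (f v) v (hf v).symm).symm

/-- **Perfect matchings.** -/
theorem product_inequality_matching {A : Type} [AddCommGroup A] [Fintype A] (G : SimpleGraph V)
    (H : SimpleGraph W) (I : Finset A) (φ : V → A) (ψ : W → A)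
    (hφ : ∀ u v, G.Adj u v → ∀ x ∈ I, ∀ y ∈ I, x - y ≠ φ u - φ v)
    (hψ : ∀ u v, H.Adj u v → ∀ x ∈ I, ∀ y ∈ I, x - y ≠ ψ u - ψ v)
    (hI : Fintype.card A ≤ 4 * I.card) (hG : 2 * edn G ≤ Fintype.card V)
    (hH : 2 * edn H ≤ Fintype.card W) : edn G * edn H ≤ edn (G.boxProd H) := by
  have h1 := exists_indep G H I φ ψ hφ hψ Finset.univ Finset.univ
  rw [Finset.univ_product_univ, ← edn_eq_ednOn, Finset.card_univ, Finset.card_univ] at h1
  have h2 : (2 * edn G) * (2 * edn H) ≤ Fintype.card V * Fintype.card W := Nat.mul_le_mul hG hH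
  have hA : 0 < Fintype.card A := Fintype.card_pos
  have hI0 : 0 < I.card := by omega
  have h3 : (4 * (edn G * edn H)) * I.card ≤ (4 * edn (G.boxProd H)) * I.card := by
    calc (4 * (edn G * edn H)) * I.card = (2 * edn G) * (2 * edn H) * I.card := by ring
      _ ≤ Fintype.card V * Fintype.card W * I.card := Nat.mul_le_mul_right _ h2
      _ ≤ Fintype.card A * edn (G.boxProd H) := h1
      _ ≤ 4 * I.card * edn (G.boxProd H) := Nat.mul_le_mul_right _ hI
      _ = _ := by ring
  have h4 := Nat.le_of_mul_le_mul_right h3 hI0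
  omega

omit [Fintype V] [DecidableEq V] in
/-- colourings as homomorphisms to a Cayley graph of `ZMod k` -/
theorem colour_hom {k : ℕ} (G : SimpleGraph V) (C : G.Coloring (Fin k)) :
    ∀ u v, G.Adj u v → ∀ x ∈ ({0} : Finset (ZMod k)), ∀ y ∈ ({0} : Finset (ZMod k)),
      x - y ≠ (((C u : Fin k) : ℕ) : ZMod k) - (((C v : Fin k) : ℕ) : ZMod k) := by
  intro u v huv x hx y hy h
  rw [Finset.mem_singleton] at hx hy
  rw [hx, hy, sub_zero] at h
  have h1 : (((C u : Fin k) : ℕ) : ZMod k) = (((C v : Fin k) : ℕ) : ZMod k) :=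
    sub_eq_zero.1 h.symm
  rw [ZMod.natCast_eq_natCast_iff', Nat.mod_eq_of_lt (C u).2, Nat.mod_eq_of_lt (C v).2] at h1
  exact C.valid huv (Fin.ext h1)

/-- **The analogue of Gallai's theorem for graphs.** -/
theorem gallai (G : SimpleGraph V) (hc : G.Connected)
    (hv : ∀ v, edn (G.induce ({v}ᶜ : Set V)) < edn G) : 2 * edn G ≤ Fintype.card V + 1 := by
  classical
  have hconn : Conn G Finset.univ := by
    intro A _ hA hB
    obtain ⟨a, ha⟩ := hA
    obtain ⟨b, hb⟩ := hB
    rw [Finset.mem_sdiff] at hb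
    obtain ⟨w⟩ := hc.preconnected a b
    obtain ⟨d, _, hd1, hd2⟩ := w.exists_boundary_dart (A : Set V) ha hb.2
    exact ⟨d.fst, hd1, d.snd, Finset.mem_sdiff.2 ⟨Finset.mem_univ _, hd2⟩, d.adj⟩
  have hcrit : Crit G Finset.univ := by
    intro v _
    have h1 := ednOn_map (Γ := G) (Γ' := G.induce ({v}ᶜ : Set V))
      (Function.Embedding.subtype (fun x => x ∈ ({v}ᶜ : Set V))) (fun x y => Iff.rfl) Finset.univ
    have h2 : (Finset.univ : Finset ↥({v}ᶜ : Set V)).map
        (Function.Embedding.subtype (fun x => x ∈ ({v}ᶜ : Set V))) = Finset.univ.erase v := by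
      ext x
      rw [Finset.mem_map, Finset.mem_erase]
      constructor
      · rintro ⟨y, _, rfl⟩
        exact ⟨y.2, Finset.mem_univ _⟩
      · intro h
        exact ⟨⟨x, h.1⟩, Finset.mem_univ _, rfl⟩
    rw [h2, ← edn_eq_ednOn] at h1
    have h3 := hv v
    rw [edn_eq_ednOn G, ← h1] at h3
    exact h3
  have := hc.nonempty
  have h := two_mul_ednOn_le G _ Finset.univ rfl Finset.univ_nonempty hconn hcrit
  rwa [← edn_eq_ednOn, Finset.card_univ] at h

end

end Pool.Agent.Lib.MP_56aee0_co.TC
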